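import Mathlib

/-!
# Random restrictions and decision trees
-/

set_option autoImplicit false
set_option linter.unusedSectionVars false

namespace Pool.Agent.SW

open Finset

variable {ι : Type} [Fintype ι] [DecidableEq ι]

/-- Apply a restriction: `ρ i = some b` fixes coordinate `i`, `none` is a star. -/
def app (ρ : ι → Option Bool) (x : ι → Bool) : ι → Bool := fun i => (ρ i).getD (x i)

/-- Weight of one coordinate. -/
noncomputable def w1 (p : ℝ) : Option Bool → ℝ
  | none => p
  | some _ => (1 - p) / 2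

theorem sum_w1 (p : ℝ) : ∑ o, w1 p o = 1 := by
  rw [Fintype.sum_option, Fintype.sum_bool]
  simp only [w1]
  ring

theorem w1_nonneg {p : ℝ} (h0 : 0 ≤ p) (h1 : p ≤ 1) (o : Option Bool) : 0 ≤ w1 p o := by
  rcases o with _ | b
  · exact h0
  · show 0 ≤ (1 - p) / 2
    linarith

/-- Weight of a restriction. -/
noncomputable def wt (p : ℝ) (ρ : ι → Option Bool) : ℝ := ∏ i, w1 p (ρ i)

theorem wt_nonneg {p : ℝ} (h0 : 0 ≤ p) (h1 : p ≤ 1) (ρ : ι → Option Bool) : 0 ≤ wt p ρ :=
  Finset.prod_nonneg fun _ _ => w1_nonneg h0 h1 _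

theorem sum_prod_option (f : ι → Option Bool → ℝ) :
    ∑ ρ : ι → Option Bool, ∏ i, f i (ρ i) = ∏ i, ∑ o, f i o := by
  rw [Finset.prod_univ_sum, Fintype.piFinset_univ]

theorem sum_wt (p : ℝ) : ∑ ρ : ι → Option Bool, wt p ρ = 1 := by
  unfold wt
  rw [sum_prod_option fun _ => w1 p]
  simp only [sum_w1, Finset.prod_const_one]

open Classical in
/-- The probability of a set of restrictions. -/
noncomputable def W (p : ℝ) (Q : (ι → Option Bool) → Prop) : ℝ :=
  ∑ ρ, if Q ρ then wt p ρ else 0

section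

variable {p : ℝ}

theorem W_nonneg (h0 : 0 ≤ p) (h1 : p ≤ 1) (Q : (ι → Option Bool) → Prop) : 0 ≤ W p Q := by
  unfold W
  refine Finset.sum_nonneg fun ρ _ => ?_
  split
  · exact wt_nonneg h0 h1 ρ
  · exact le_rfl

theorem W_mono (h0 : 0 ≤ p) (h1 : p ≤ 1) {Q Q' : (ι → Option Bool) → Prop}
    (h : ∀ ρ, Q ρ → Q' ρ) : W p Q ≤ W p Q' := by
  unfold W
  refine Finset.sum_le_sum fun ρ _ => ?_
  by_cases hQ : Q ρ
  · rw [if_pos hQ, if_pos (h ρ hQ)]
  · rw [if_neg hQ]
    split
    · exact wt_nonneg h0 h1 ρ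
    · exact le_rfl

theorem W_congr {Q Q' : (ι → Option Bool) → Prop} (h : ∀ ρ, Q ρ ↔ Q' ρ) : W p Q = W p Q' := by
  have : Q = Q' := funext fun ρ => propext (h ρ)
  rw [this]

theorem W_false : W p (fun _ : ι → Option Bool => False) = 0 := by
  unfold W
  simp

theorem W_true : W p (fun _ : ι → Option Bool => True) = 1 := by
  unfold W
  simp only [if_true]
  exact sum_wt p

theorem W_or_le (h0 : 0 ≤ p) (h1 : p ≤ 1) (Q Q' : (ι → Option Bool) → Prop) :
    W p (fun ρ => Q ρ ∨ Q' ρ) ≤ W p Q + W p Q' := by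
  unfold W
  rw [← Finset.sum_add_distrib]
  refine Finset.sum_le_sum fun ρ _ => ?_
  have := wt_nonneg h0 h1 ρ
  by_cases h : Q ρ <;> by_cases h' : Q' ρ <;> simp [h, h'] <;> linarith

theorem W_split (Q Q' : (ι → Option Bool) → Prop) :
    W p Q = W p (fun ρ => Q ρ ∧ Q' ρ) + W p (fun ρ => Q ρ ∧ ¬ Q' ρ) := by
  unfold W
  rw [← Finset.sum_add_distrib]
  refine Finset.sum_congr rfl fun ρ _ => ?_
  by_cases h : Q ρ <;> by_cases h' : Q' ρ <;> simp [h, h']

theorem W_exists_le (h0 : 0 ≤ p) (h1 : p ≤ 1) {κ : Type*} (s : Finset κ)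
    (Q : κ → (ι → Option Bool) → Prop) :
    W p (fun ρ => ∃ k ∈ s, Q k ρ) ≤ ∑ k ∈ s, W p (Q k) := by
  classical
  induction s using Finset.induction_on with
  | empty =>
    rw [Finset.sum_empty]
    have : W p (fun ρ : ι → Option Bool => ∃ k ∈ (∅ : Finset κ), Q k ρ) = W p fun _ => False :=
      W_congr fun ρ => by simp
    rw [this, W_false]
  | insert a s ha ih =>
    rw [Finset.sum_insert ha]
    have : W p (fun ρ : ι → Option Bool => ∃ k ∈ insert a s, Q k ρ) =
        W p fun ρ => Q a ρ ∨ ∃ k ∈ s, Q k ρ := W_congr fun ρ => by simp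
    rw [this]
    exact (W_or_le h0 h1 _ _).trans (add_le_add le_rfl ih)

/-- One coordinate is independent of the others. -/
theorem W_coord (a : ι) (o : Option Bool) (Q : (ι → Option Bool) → Prop)
    (hQ : ∀ ρ o', Q (Function.update ρ a o') ↔ Q ρ) :
    W p (fun ρ => ρ a = o ∧ Q ρ) = w1 p o * W p Q := by
  classical
  set S : Option Bool → ℝ := fun o => W p (fun ρ => ρ a = o ∧ Q ρ) with hS
  have hwt : ∀ (ρ : ι → Option Bool) (o' : Option Bool),
      wt p (Function.update ρ a o') * w1 p (ρ a) = wt p ρ * w1 p o' := by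
    intro ρ o'
    unfold wt
    rw [← Finset.mul_prod_erase univ _ (mem_univ a),
      ← Finset.mul_prod_erase univ (fun i => w1 p (ρ i)) (mem_univ a), Function.update_self]
    have : ∏ i ∈ univ.erase a, w1 p (Function.update ρ a o' i) =
        ∏ i ∈ univ.erase a, w1 p (ρ i) := by
      refine Finset.prod_congr rfl fun i hi => ?_
      rw [Function.update_of_ne (Finset.ne_of_mem_erase hi)]
    rw [this]
    ring
  -- exchange of two values
  have hex : ∀ o o', S o * w1 p o' = S o' * w1 p o := by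
    intro o o'
    simp only [hS, W]
    rw [Finset.sum_mul, Finset.sum_mul]
    simp only [ite_mul, zero_mul]
    rw [← Finset.sum_filter, ← Finset.sum_filter]
    refine Finset.sum_bij' (fun ρ _ => Function.update ρ a o')
      (fun ρ _ => Function.update ρ a o) ?_ ?_ ?_ ?_ ?_
    · intro ρ hρ
      rw [Finset.mem_filter] at hρ ⊢
      exact ⟨mem_univ _, Function.update_self _ _ _, (hQ ρ o').2 hρ.2.2⟩
    · intro ρ hρ
      rw [Finset.mem_filter] at hρ ⊢
      exact ⟨mem_univ _, Function.update_self _ _ _, (hQ ρ o).2 hρ.2.2⟩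
    · intro ρ hρ
      rw [Finset.mem_filter] at hρ
      rw [Function.update_idem, ← hρ.2.1, Function.update_eq_self]
    · intro ρ hρ
      rw [Finset.mem_filter] at hρ
      rw [Function.update_idem, ← hρ.2.1, Function.update_eq_self]
    · intro ρ hρ
      rw [Finset.mem_filter] at hρ
      rw [← hwt ρ o', hρ.2.1]
  have hsum : ∑ o', S o' = W p Q := by
    simp only [hS, W]
    rw [Finset.sum_comm]
    refine Finset.sum_congr rfl fun ρ _ => ?_
    by_cases h : Q ρ
    · simp [h]
    · simp [h]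
  calc S o = S o * ∑ o', w1 p o' := by rw [sum_w1, mul_one]
    _ = ∑ o', S o * w1 p o' := Finset.mul_sum _ _ _
    _ = ∑ o', S o' * w1 p o := Finset.sum_congr rfl fun o' _ => hex o o'
    _ = w1 p o * ∑ o', S o' := by rw [← Finset.sum_mul, mul_comm]
    _ = w1 p o * W p Q := by rw [hsum]

/-- The coordinates in `A` are independent of the others. -/
theorem W_pat (A : Finset ι) (pat : ι → Option Bool) (Q : (ι → Option Bool) → Prop)
    (hQ : ∀ ρ, ∀ a ∈ A, ∀ o', Q (Function.update ρ a o') ↔ Q ρ) :
    W p (fun ρ => (∀ i ∈ A, ρ i = pat i) ∧ Q ρ) = (∏ i ∈ A, w1 p (pat i)) * W p Q := by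
  induction A using Finset.induction_on with
  | empty =>
    rw [Finset.prod_empty, one_mul]
    exact W_congr fun ρ => by simp
  | insert a A ha ih =>
    have h1 : W p (fun ρ => (∀ i ∈ insert a A, ρ i = pat i) ∧ Q ρ) =
        W p (fun ρ => ρ a = pat a ∧ ((∀ i ∈ A, ρ i = pat i) ∧ Q ρ)) :=
      W_congr fun ρ => by
        rw [Finset.forall_mem_insert, and_assoc]
    rw [h1, W_coord a (pat a) _ ?_, ih fun ρ b hb o' => hQ ρ b (Finset.mem_insert_of_mem hb) o',
      Finset.prod_insert ha, mul_assoc]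
    intro ρ o'
    rw [hQ ρ a (Finset.mem_insert_self a A) o']
    refine and_congr_left fun _ => forall₂_congr fun i hi => ?_
    have hne : i ≠ a := fun h => ha (h ▸ hi)
    rw [Function.update_of_ne hne]

end

/-! ## decision trees -/

/-- Functions with a decision tree of depth at most `T`. -/
def DTle : ℕ → ((ι → Bool) → Bool) → Prop
  | 0, f => ∃ b, ∀ x, f x = b
  | T + 1, f => (∃ b, ∀ x, f x = b) ∨ ∃ i : ι, ∀ b, DTle T fun x => f (Function.update x i b)

theorem DTle.of_const {T : ℕ} {f : (ι → Bool) → Bool} (h : ∃ b, ∀ x, f x = b) : DTle T f := by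
  cases T with
  | zero => exact h
  | succ T => exact Or.inl h

theorem DTle.succ {T : ℕ} : ∀ {f : (ι → Bool) → Bool}, DTle T f → DTle (T + 1) f := by
  induction T with
  | zero => exact fun h => Or.inl h
  | succ T ih =>
    rintro f (h | ⟨i, h⟩)
    · exact Or.inl h
    · exact Or.inr ⟨i, fun b => ih (h b)⟩

theorem DTle.mono {T T' : ℕ} (h : T ≤ T') {f : (ι → Bool) → Bool} (hf : DTle T f) :
    DTle T' f := by
  induction T', h using Nat.le_induction with
  | base => exact hf
  | succ n _ ih => exact ih.succ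

theorem DTle.map {T : ℕ} (φ : Bool → Bool) : ∀ {f : (ι → Bool) → Bool}, DTle T f →
    DTle T fun x => φ (f x) := by
  induction T with
  | zero =>
    rintro f ⟨b, hb⟩
    exact ⟨φ b, fun x => congrArg φ (hb x)⟩
  | succ T ih =>
    rintro f (⟨b, hb⟩ | ⟨i, h⟩)
    · exact Or.inl ⟨φ b, fun x => congrArg φ (hb x)⟩
    · exact Or.inr ⟨i, fun b => ih (h b)⟩

omit [Fintype ι] in
theorem app_update_none {ρ : ι → Option Bool} {i : ι} (h : ρ i = none) (x : ι → Bool) (b : Bool) :
    app ρ (Function.update x i b) = Function.update (app ρ x) i b := by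
  funext j
  by_cases hj : j = i
  · subst hj
    simp [app, h]
  · simp [app, Function.update_of_ne hj]

omit [Fintype ι] in
theorem update_app_some {ρ : ι → Option Bool} {i : ι} {b : Bool} (h : ρ i = some b)
    (x : ι → Bool) : Function.update (app ρ x) i b = app ρ x := by
  have : app ρ x i = b := by simp [app, h]
  rw [← this, Function.update_eq_self]

theorem DTle.app {T : ℕ} (ρ : ι → Option Bool) : ∀ {f : (ι → Bool) → Bool}, DTle T f →
    DTle T fun x => f (app ρ x) := by
  induction T with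
  | zero =>
    rintro f ⟨b, hb⟩
    exact ⟨b, fun x => hb _⟩
  | succ T ih =>
    rintro f (⟨b, hb⟩ | ⟨i, h⟩)
    · exact Or.inl ⟨b, fun x => hb _⟩
    · rcases hi : ρ i with _ | b
      · refine Or.inr ⟨i, fun b => ?_⟩
        have := ih (h b)
        simp only [app_update_none hi]
        exact this
      · have := ih (h b)
        simp only [update_app_some hi] at this
        exact this.succ

/-- Query all variables of a set. -/
theorem DTle.query {t : ℕ} (Y : Finset ι) : ∀ {f : (ι → Bool) → Bool},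
    (∀ z : ι → Bool, DTle t fun x => f fun i => if i ∈ Y then z i else x i) →
    DTle (t + Y.card) f := by
  induction Y using Finset.induction_on with
  | empty =>
    intro f h
    have := h fun _ => false
    simpa using this
  | insert a Y ha ih =>
    intro f h
    rw [Finset.card_insert_of_notMem ha, ← Nat.add_assoc]
    refine Or.inr ⟨a, fun b => ih fun z => ?_⟩
    have h1 := h (Function.update z a b)
    refine cast (congrArg (DTle t) ?_) h1
    funext x
    congr 1
    funext i
    by_cases hi : i = a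
    · subst hi
      simp
    · by_cases hY : i ∈ Y
      · simp [hi, hY]
      · simp [hi, hY]

end Pool.Agent.SW
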