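import Pool.Agent.RS.Circuit

/-!
# Circuits without counting gates
-/

set_option autoImplicit false

namespace Pool.Agent.RS

/-- All gates of the circuit are `NOR`, `AND` or `OR` gates: there are no counting gates. -/
def NoMod {V : Type} {s : ℕ} (C : Circuit V s) : Prop :=
  ∀ g, C.kind g = Kind.nor ∨ C.kind g = Kind.and ∨ C.kind g = Kind.or

end Pool.Agent.RS
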