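import Pool.Agent.SW.Rounds
import Pool.Agent.SW.Defs
import Pool.Agent.QuadSys.Cert
import Pool.Agent.Helper21.LinSys.Basic

/-!
# Constant depth circuits do not correlate with characters modulo a prime
-/

set_option autoImplicit false

namespace Pool.Agent.SW

open Finset Pool.Agent.RS Pool.Agent.QuadSys Pool.Agent.Helper21.LinSys

/-! ## circuits -/

theorem trueInputs_pos {V : Type} [Fintype V] {s : ℕ} (C : Circuit V s) (x : V → Bool)
    (val : Fin s → Bool) (g : Fin s) : 0 < C.trueInputs x val g ↔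
      (∃ v, C.vw g v ≠ 0 ∧ x v = true) ∨ ∃ k, C.gw g k ≠ 0 ∧ val k = true := by
  unfold Circuit.trueInputs
  rw [Nat.pos_iff_ne_zero, Ne, Nat.add_eq_zero_iff, Finset.sum_eq_zero_iff,
    Finset.sum_eq_zero_iff, not_and_or]
  push Not
  constructor
  · rintro (⟨v, _, h⟩ | ⟨k, _, h⟩)
    · left
      by_cases hx : x v = true
      · rw [if_pos hx] at h
        exact ⟨v, h, hx⟩
      · rw [if_neg hx] at h
        exact absurd rfl h
    · right
      by_cases hx : val k = true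
      · rw [if_pos hx] at h
        exact ⟨k, h, hx⟩
      · rw [if_neg hx] at h
        exact absurd rfl h
  · rintro (⟨v, h, hx⟩ | ⟨k, h, hx⟩)
    · exact Or.inl ⟨v, mem_univ v, by rw [if_pos hx]; exact h⟩
    · exact Or.inr ⟨k, mem_univ k, by rw [if_pos hx]; exact h⟩

theorem trueInputs_eq_inputs {V : Type} [Fintype V] {s : ℕ} (C : Circuit V s) (x : V → Bool)
    (val : Fin s → Bool) (g : Fin s) : C.trueInputs x val g = C.inputs g ↔
      (∀ v, C.vw g v ≠ 0 → x v = true) ∧ ∀ k, C.gw g k ≠ 0 → val k = true := by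
  have h1 : ∀ {J : Type} [Fintype J] (w : J → ℕ) (y : J → Bool),
      (∑ j, if y j = true then w j else 0) ≤ ∑ j, w j ∧
      ((∑ j, if y j = true then w j else 0) = ∑ j, w j ↔ ∀ j, w j ≠ 0 → y j = true) := by
    intro J _ w y
    have h2 : ∀ j ∈ (univ : Finset J), (if y j = true then w j else 0) ≤ w j := by
      intro j _
      split
      · exact le_rfl
      · exact Nat.zero_le _
    refine ⟨Finset.sum_le_sum h2, ?_⟩
    rw [Finset.sum_eq_sum_iff_of_le h2]
    constructor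
    · intro h j hj
      have := h j (mem_univ j)
      by_contra hy
      rw [if_neg hy] at this
      exact hj this.symm
    · intro h j _
      by_cases hj : w j = 0
      · rw [hj]
        exact ite_self 0
      · rw [if_pos (h j hj)]
  have h3 := h1 (C.vw g) x
  have h4 := h1 (C.gw g) val
  unfold Circuit.trueInputs Circuit.inputs
  rw [← h3.2, ← h4.2]
  constructor
  · intro h
    constructor <;> omega
  · rintro ⟨h, h'⟩
    omega

theorem gateOK_of {V : Type} [Fintype V] {M s : ℕ} (p : ℕ) (C : Circuit V s) (hC : NoMod C)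
    (inp : (Fin M → Bool) → V → Bool)
    (hinp : ∀ v, (∃ b, ∀ t, inp t v = b) ∨ ∃ (j : Fin M) (b : Bool), ∀ t, inp t v = xor b (t j))
    (val : (Fin M → Bool) → Fin s → Bool) (hval : ∀ t, C.IsRun p (inp t) (val t)) (g : Fin s) :
    GateOK C.level (fun g t => val t g) g := by
  refine ⟨{a | (∃ v, C.vw g v ≠ 0 ∧ a = fun t => inp t v) ∨
    ∃ k, C.gw g k ≠ 0 ∧ a = fun t => val t k}, ?_, ?_⟩
  · rintro a (⟨v, _, rfl⟩ | ⟨k, hk, rfl⟩)
    · left
      rcases hinp v with ⟨b, hb⟩ | ⟨j, b, hb⟩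
      · exact Or.inl ⟨b, hb⟩
      · refine Or.inr ⟨j, fun c => ⟨xor b c, fun t => ?_⟩⟩
        show inp (Function.update t j c) v = xor b c
        rw [hb, Function.update_self]
    · exact Or.inr ⟨k, C.level_lt g k hk, rfl⟩
  · have hex : ∀ (t : Fin M → Bool) (b : Bool),
        (∃ a ∈ ({a | (∃ v, C.vw g v ≠ 0 ∧ a = fun t => inp t v) ∨
          ∃ k, C.gw g k ≠ 0 ∧ a = fun t => val t k} : Set ((Fin M → Bool) → Bool)), a t = b) ↔
        (∃ v, C.vw g v ≠ 0 ∧ inp t v = b) ∨ ∃ k, C.gw g k ≠ 0 ∧ val t k = b := by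
      intro t b
      constructor
      · rintro ⟨a, ⟨v, hv, rfl⟩ | ⟨k, hk, rfl⟩, h⟩
        · exact Or.inl ⟨v, hv, h⟩
        · exact Or.inr ⟨k, hk, h⟩
      · rintro (⟨v, hv, h⟩ | ⟨k, hk, h⟩)
        · exact ⟨_, Or.inl ⟨v, hv, rfl⟩, h⟩
        · exact ⟨_, Or.inr ⟨k, hk, rfl⟩, h⟩
    have hrun : ∀ t, val t g = true ↔ C.Fires p (inp t) (val t) g := fun t => hval t g
    rcases hC g with hk | hk | hk
    · right; right
      intro t
      show val t g = true ↔ _
      rw [hrun t]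
      unfold Circuit.Fires
      rw [hk]
      show C.trueInputs (inp t) (val t) g = 0 ↔ _
      rw [← not_iff_not, ← Ne, ← Nat.pos_iff_ne_zero, trueInputs_pos, ← hex t true]
      constructor
      · rintro ⟨a, ha, h⟩ hall
        have := hall a ha
        rw [h] at this
        exact Bool.noConfusion this
      · intro h
        by_contra hcon
        refine h fun a ha => ?_
        by_contra hne
        exact hcon ⟨a, ha, by simpa using hne⟩
    · right; left
      intro t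
      show val t g = true ↔ _
      rw [hrun t]
      unfold Circuit.Fires
      rw [hk]
      show C.trueInputs (inp t) (val t) g = C.inputs g ↔ _
      rw [trueInputs_eq_inputs]
      constructor
      · rintro ⟨h1, h2⟩ a (⟨v, hv, rfl⟩ | ⟨k, hk, rfl⟩)
        · exact h1 v hv
        · exact h2 k hk
      · intro h
        exact ⟨fun v hv => h _ (Or.inl ⟨v, hv, rfl⟩), fun k hk => h _ (Or.inr ⟨k, hk, rfl⟩)⟩
    · left
      intro t
      show val t g = true ↔ _
      rw [hrun t]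
      unfold Circuit.Fires
      rw [hk]
      show 0 < C.trueInputs (inp t) (val t) g ↔ _
      rw [trueInputs_pos, ← hex t true]

theorem char_sum {r : ℕ} [NeZero r] {J : Type} (S : Finset J) (f : J → ZMod r) :
    (ZMod.stdAddChar (∑ j ∈ S, f j) : ℂ) = ∏ j ∈ S, (ZMod.stdAddChar (f j) : ℂ) := by
  classical
  induction S using Finset.induction_on with
  | empty => rw [Finset.sum_empty, Finset.prod_empty, AddChar.map_zero_eq_one]
  | insert a S ha ih => rw [Finset.sum_insert ha, Finset.prod_insert ha, AddChar.map_add_eq_mul, ih]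

/-! ## numbers -/

theorem par_of {T : ℕ} (hT : 1 ≤ T) : Par (1 / ((16 * T + 1 : ℕ) : ℝ)) (1 / 2) T := by
  have hT' : (1 : ℝ) ≤ T := by exact_mod_cast hT
  have hN : (0 : ℝ) < ((16 * T + 1 : ℕ) : ℝ) := by positivity
  have hNe : ((16 * T + 1 : ℕ) : ℝ) = 16 * T + 1 := by push_cast; ring
  have hp1 : 1 / ((16 * T + 1 : ℕ) : ℝ) < 1 := by
    rw [div_lt_one hN, hNe]
    linarith
  refine ⟨by positivity, hp1, by norm_num, by norm_num, hT, ?_⟩
  intro k hk
  have h1 : 2 * (1 / ((16 * T + 1 : ℕ) : ℝ)) / (1 / 2) + (1 - 1 / ((16 * T + 1 : ℕ) : ℝ)) / 2 =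
      (1 + 1 / (2 * T)) * ((1 - 1 / ((16 * T + 1 : ℕ) : ℝ)) / 2) := by
    rw [hNe]
    have : (16 * (T : ℝ) + 1) ≠ 0 := by positivity
    have h2 : (T : ℝ) ≠ 0 := by positivity
    field_simp
    ring
  rw [h1, mul_pow]
  have h0 : 0 ≤ ((1 - 1 / ((16 * T + 1 : ℕ) : ℝ)) / 2) := by linarith
  refine mul_le_mul_of_nonneg_right ?_ (pow_nonneg h0 k)
  have h2 : (1 + 1 / (2 * (T : ℝ))) ^ k ≤ (1 + 1 / (2 * (T : ℝ))) ^ T := by
    refine pow_le_pow_right₀ ?_ hk
    have : (0 : ℝ) ≤ 1 / (2 * (T : ℝ)) := by positivity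
    linarith
  have h3 : (1 + 1 / (2 * (T : ℝ))) ^ T ≤ Real.exp (1 / 2) := by
    have h4 : 1 + 1 / (2 * (T : ℝ)) ≤ Real.exp (1 / (2 * T)) := by
      have := Real.add_one_le_exp (1 / (2 * (T : ℝ)))
      linarith
    refine (pow_le_pow_left₀ (by positivity) h4 T).trans (le_of_eq ?_)
    rw [← Real.exp_nat_mul]
    congr 1
    field_simp
  have h5 : Real.exp (1 / 2) ≤ 2 := by
    have h6 : Real.exp (1 / 2) * Real.exp (1 / 2) = Real.exp 1 := by
      rw [← Real.exp_add]
      norm_num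
    have h7 := Real.exp_one_lt_d9
    nlinarith [Real.exp_pos (1 / 2 : ℝ)]
  linarith

theorem one_sub_rho {r : ℕ} (hr : 2 ≤ r) : 1 / (r : ℝ) ^ 2 ≤ 1 - rho r := by
  have hr' : (2 : ℝ) ≤ r := by exact_mod_cast hr
  have hr2 : (0 : ℝ) < (r : ℝ) ^ 2 := by positivity
  have hx : 2 / (r : ℝ) ^ 2 ≤ 1 := by
    rw [div_le_one hr2]
    nlinarith
  have hx0 : 0 < 2 / (r : ℝ) ^ 2 := by positivity
  have h1 : rho r ≤ 1 / (1 + 2 / (r : ℝ) ^ 2) := by
    unfold rho
    rw [Real.exp_neg, ← one_div]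
    refine one_div_le_one_div_of_le (by positivity) ?_
    have := Real.add_one_le_exp (2 / (r : ℝ) ^ 2)
    linarith
  have h2 : 1 / (1 + 2 / (r : ℝ) ^ 2) ≤ 1 - 1 / (r : ℝ) ^ 2 := by
    have h3 : 1 / (r : ℝ) ^ 2 = (2 / (r : ℝ) ^ 2) / 2 := by ring
    rw [h3]
    set x := 2 / (r : ℝ) ^ 2
    rw [div_le_iff₀ (by positivity)]
    nlinarith
  linarith

theorem numbers {M lam r d T : ℕ} (hr : 2 ≤ r)
    (hM : (16 * T + 1) ^ d * r ^ 2 * (2 * T + lam + 1) ≤ M) :
    (1 / rho r) ^ T * yy (1 / ((16 * T + 1 : ℕ) : ℝ)) (rho r) d ^ M ≤ 1 / 2 ^ (lam + 1) := by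
  have hr' : (2 : ℝ) ≤ r := by exact_mod_cast hr
  have hr2 : (0 : ℝ) < (r : ℝ) ^ 2 := by positivity
  set p : ℝ := 1 / ((16 * T + 1 : ℕ) : ℝ) with hp
  have hp0 : 0 < p := by positivity
  have hp1 : p ≤ 1 := by
    rw [hp, div_le_one (by positivity)]
    push_cast
    linarith [(Nat.cast_nonneg T : (0 : ℝ) ≤ T)]
  have hκ := one_sub_rho hr
  have h1 : yy p (rho r) d ≤ Real.exp (-(p ^ d * (1 / (r : ℝ) ^ 2))) := by
    rw [yy_eq]
    have h2 : p ^ d * (1 / (r : ℝ) ^ 2) ≤ p ^ d * (1 - rho r) :=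
      mul_le_mul_of_nonneg_left hκ (by positivity)
    have h3 := Real.add_one_le_exp (-(p ^ d * (1 / (r : ℝ) ^ 2)))
    linarith
  have h2 : yy p (rho r) d ^ M ≤ Real.exp (-(M * (p ^ d * (1 / (r : ℝ) ^ 2)))) := by
    refine (pow_le_pow_left₀ (yy_nonneg hp0.le hp1 (rho_pos r).le d) h1 M).trans (le_of_eq ?_)
    rw [← Real.exp_nat_mul]
    congr 1
    ring
  have h3 : (1 / rho r) ^ T ≤ Real.exp T := by
    unfold rho
    rw [one_div, ← Real.exp_neg, neg_neg, ← Real.exp_nat_mul]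
    refine Real.exp_le_exp.2 ?_
    have h4 : 2 / (r : ℝ) ^ 2 ≤ 1 := by
      rw [div_le_one hr2]
      nlinarith
    have h5 : (0 : ℝ) ≤ T := Nat.cast_nonneg T
    nlinarith
  have h4 : (2 * T + lam + 1 : ℝ) ≤ M * (p ^ d * (1 / (r : ℝ) ^ 2)) := by
    have h5 : ((16 * T + 1 : ℕ) : ℝ) ^ d * (r : ℝ) ^ 2 * (2 * T + lam + 1) ≤ M := by
      exact_mod_cast hM
    have h6 : (M : ℝ) * (p ^ d * (1 / (r : ℝ) ^ 2)) =
        M / (((16 * T + 1 : ℕ) : ℝ) ^ d * (r : ℝ) ^ 2) := by
      rw [hp, one_div_pow]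
      field_simp
    rw [h6, le_div_iff₀ (by positivity)]
    linarith
  calc (1 / rho r) ^ T * yy p (rho r) d ^ M
      ≤ Real.exp T * Real.exp (-(M * (p ^ d * (1 / (r : ℝ) ^ 2)))) :=
        mul_le_mul h3 h2 (pow_nonneg (yy_nonneg hp0.le hp1 (rho_pos r).le d) M)
          (Real.exp_pos _).le
    _ = Real.exp (T - M * (p ^ d * (1 / (r : ℝ) ^ 2))) := by
        rw [← Real.exp_add]
        congr 1
    _ ≤ Real.exp (-(lam + 1 : ℕ)) := by
        refine Real.exp_le_exp.2 ?_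
        push_cast
        have h5 : (0 : ℝ) ≤ T := Nat.cast_nonneg T
        linarith
    _ ≤ 1 / 2 ^ (lam + 1) := by
        rw [Real.exp_neg, ← one_div]
        refine one_div_le_one_div_of_le (by positivity) ?_
        have h7 : ((lam + 1 : ℕ) : ℝ) = ((lam + 1 : ℕ) : ℝ) * 1 := (mul_one _).symm
        rw [h7, Real.exp_nat_mul]
        refine pow_le_pow_left₀ (by norm_num) ?_ _
        have := Real.add_one_le_exp (1 : ℝ)
        linarith

theorem size_bound (d : ℕ) {M lam r s : ℕ} (hr : 2 ≤ r)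
    (hM : pb (17 * (d + 1)) (lam + r + Nat.clog 2 s + 1) ≤ M) :
    (16 * (lam + Nat.clog 2 s + d + 1) + 1) ^ d * r ^ 2 *
      (2 * (lam + Nat.clog 2 s + d + 1) + lam + 1) ≤ M := by
  refine le_trans ?_ hM
  set X := lam + r + Nat.clog 2 s + 1 with hX
  set T := lam + Nat.clog 2 s + d + 1 with hT
  have hX1 : 1 ≤ X := by omega
  have hTX : T ≤ (d + 1) * X := by
    have : d * 1 ≤ d * X := Nat.mul_le_mul_left d hX1
    rw [add_mul, one_mul]
    omega
  unfold pb
  have h1 : 16 * T + 1 ≤ 17 * (d + 1) * X := by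
    have h2 : 1 ≤ (d + 1) * X := Nat.mul_pos (Nat.succ_pos d) hX1
    have h3 : 17 * (d + 1) * X = 17 * ((d + 1) * X) := by ring
    rw [h3]
    omega
  have h2 : r ≤ 17 * (d + 1) * X := by
    have h3 : 1 * X ≤ 17 * (d + 1) * X := Nat.mul_le_mul_right X (by omega)
    omega
  have h3 : 2 * T + lam + 1 ≤ 17 * (d + 1) * X := by
    have h4 : 1 * X ≤ (d + 1) * X := Nat.mul_le_mul_right X (by omega)
    have h5 : 17 * (d + 1) * X = 17 * ((d + 1) * X) := by ring
    rw [h5]
    omega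
  have h4 : 1 ≤ 17 * (d + 1) * X := by omega
  calc (16 * T + 1) ^ d * r ^ 2 * (2 * T + lam + 1)
      ≤ (17 * (d + 1) * X) ^ d * (17 * (d + 1) * X) ^ 2 * (17 * (d + 1) * X) :=
        Nat.mul_le_mul (Nat.mul_le_mul (Nat.pow_le_pow_left h1 d) (Nat.pow_le_pow_left h2 2)) h3
    _ = (17 * (d + 1) * X) ^ (d + 3) := by ring
    _ ≤ (17 * (d + 1) * X) ^ (17 * (d + 1)) := Nat.pow_le_pow_right h4 (by omega)

open Classical in
/-- **Constant depth circuits do not correlate with characters modulo a prime.** -/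
theorem ac0_corr (d : ℕ) : ∃ K : ℕ,
    ∀ {V : Type} [Fintype V] {M s r lam : ℕ} [NeZero r] (p : ℕ)
      (C : Circuit V s) (inp : (Fin M → Bool) → V → Bool), NoMod C → C.level C.out + 1 ≤ d →
      (∀ v, (∃ b, ∀ t, inp t v = b) ∨ ∃ (j : Fin M) (b : Bool), ∀ t, inp t v = xor b (t j)) →
      r.Prime → ∀ c : Fin M → ZMod r, (∀ j, c j ≠ 0) →
      pb K (lam + r + Nat.clog 2 s + 1) ≤ M →
      ‖∑ t, if C.Accepts p (inp t) then (ZMod.stdAddChar (ev c t) : ℂ) else 0‖ ≤
        2 ^ M / 2 ^ lam := by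
  refine ⟨17 * (d + 1), ?_⟩
  intro V _ M s r lam _ p C inp hC hd hinp hr c hc hM
  have hr2 := hr.two_le
  choose val hval using fun t => C.exists_run p (inp t)
  set T := lam + Nat.clog 2 s + d + 1 with hT
  have hT1 : 1 ≤ T := by omega
  have hM' := size_bound d hr2 hM
  have h0 := rounds (ι := Fin M) (par_of hT1) (rho_pos r) (rho_le_one r) C.level C.out d 0
    (fun g t => val t g) (fun j b => if b = true then (ZMod.stdAddChar (c j) : ℂ) else 1) univ
    (gateOK_of p C hC inp hinp val hval) (fun g hg => absurd hg (Nat.not_lt_zero _)) (by omega)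
    (by
      intro j b
      cases b
      · simp
      · simp only [if_true]
        rw [AddChar.norm_apply])
    (by
      intro j _
      simp only [Bool.false_eq_true, if_false, if_true]
      exact norm_one_add_le (c j) (hc j))
  have h1 : ∀ t : Fin M → Bool, (if C.Accepts p (inp t) then (ZMod.stdAddChar (ev c t) : ℂ) else 0)
      = if val t C.out = true then
        ∏ j, (if t j = true then (ZMod.stdAddChar (c j) : ℂ) else 1) else 0 := by
    intro t
    have h2 : (ZMod.stdAddChar (ev c t) : ℂ) =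
        ∏ j, (if t j = true then (ZMod.stdAddChar (c j) : ℂ) else 1) := by
      unfold ev
      rw [char_sum]
      refine Finset.prod_congr rfl fun j _ => ?_
      split
      · rfl
      · exact AddChar.map_zero_eq_one _
    rw [h2]
    exact if_congr (Circuit.accepts_iff (hval t)) rfl rfl
  simp only [h1]
  refine h0.trans ?_
  rw [Finset.card_univ, Fintype.card_fin, div_eq_mul_one_div ((2 : ℝ) ^ M)]
  refine mul_le_mul_of_nonneg_left ?_ (by positivity)
  have h2 := numbers (lam := lam) (d := d) (T := T) hr2 hM'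
  have h3 : (d : ℝ) * s * (1 / 2) ^ (T + 1) ≤ 1 / 2 ^ (lam + 1) := by
    have hs : s ≤ 2 ^ Nat.clog 2 s := Nat.le_pow_clog (by norm_num) s
    have hd' : d ≤ 2 ^ d := Nat.lt_two_pow_self.le
    have h4 : d * s * 2 ^ (lam + 1) ≤ 2 ^ (T + 1) := by
      calc d * s * 2 ^ (lam + 1) ≤ 2 ^ d * 2 ^ Nat.clog 2 s * 2 ^ (lam + 1) :=
            Nat.mul_le_mul_right _ (Nat.mul_le_mul hd' hs)
        _ = 2 ^ (d + Nat.clog 2 s + (lam + 1)) := by rw [← pow_add, ← pow_add]
        _ ≤ 2 ^ (T + 1) := Nat.pow_le_pow_right (by norm_num) (by omega)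
    have h5 : (d : ℝ) * s * 2 ^ (lam + 1) ≤ 2 ^ (T + 1) := by exact_mod_cast h4
    rw [one_div_pow, mul_one_div, div_le_div_iff₀ (by positivity) (by positivity), one_mul]
    exact h5
  have h4 : (1 : ℝ) / 2 ^ lam = 1 / 2 ^ (lam + 1) + 1 / 2 ^ (lam + 1) := by
    rw [pow_succ]
    field_simp
    norm_num
  rw [h4]
  exact add_le_add h3 h2

end Pool.Agent.SW
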