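import Pool.Agent.SW.Switch

/-!
# Correlation of constant depth circuits with product functions
-/

set_option autoImplicit false
set_option linter.unusedSectionVars false

namespace Pool.Agent.SW

open Finset

variable {ι : Type} [Fintype ι] [DecidableEq ι]

/-- A random restriction followed by a random point is a random point. -/
theorem sum_app (p : ℝ) (F : (ι → Bool) → ℂ) :
    ∑ ρ : ι → Option Bool, (wt p ρ : ℂ) * ∑ x, F (app ρ x) = ∑ x, F x := by
  classical
  have key : ∀ y : ι → Bool, ∑ ρ : ι → Option Bool, ∑ x : ι → Bool,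
      (if app ρ x = y then wt p ρ else 0) = 1 := by
    intro y
    have h1 : ∀ (ρ : ι → Option Bool) (x : ι → Bool), (if app ρ x = y then wt p ρ else 0) =
        ∏ i, if (ρ i).getD (x i) = y i then w1 p (ρ i) else 0 := by
      intro ρ x
      by_cases h : app ρ x = y
      · rw [if_pos h]
        unfold wt
        refine Finset.prod_congr rfl fun i _ => ?_
        have : (ρ i).getD (x i) = y i := congrFun h i
        rw [if_pos this]
      · rw [if_neg h]
        have : ∃ i, (ρ i).getD (x i) ≠ y i := by
          by_contra hcon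
          push Not at hcon
          exact h (funext hcon)
        obtain ⟨i, hi⟩ := this
        exact (Finset.prod_eq_zero (mem_univ i) (if_neg hi)).symm
    simp only [h1]
    have h2 : ∀ ρ : ι → Option Bool, ∑ x : ι → Bool, ∏ i,
        (if (ρ i).getD (x i) = y i then w1 p (ρ i) else 0) =
        ∏ i, ∑ b : Bool, if (ρ i).getD b = y i then w1 p (ρ i) else 0 := by
      intro ρ
      rw [Finset.prod_univ_sum, Fintype.piFinset_univ]
    simp only [h2]
    rw [sum_prod_option fun i o => ∑ b : Bool, if o.getD b = y i then w1 p o else 0]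
    refine Finset.prod_eq_one fun i _ => ?_
    rw [Fintype.sum_option, Fintype.sum_bool]
    simp only [Fintype.sum_bool, Option.getD_none, Option.getD_some, w1]
    cases y i <;> simp
  have h3 : ∑ ρ : ι → Option Bool, (wt p ρ : ℂ) * ∑ x, F (app ρ x) =
      ∑ y : ι → Bool, F y * ((∑ ρ : ι → Option Bool, ∑ x : ι → Bool,
        (if app ρ x = y then wt p ρ else 0) : ℝ) : ℂ) := by
    push_cast
    simp only [Finset.mul_sum]
    rw [Finset.sum_comm' (t' := univ) (s' := fun _ => univ) (by simp)]
    rw [Finset.sum_comm]
    conv_rhs => rw [Finset.sum_comm]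
    refine Finset.sum_congr rfl fun ρ _ => ?_
    rw [Finset.sum_comm]
    refine Finset.sum_congr rfl fun x _ => ?_
    rw [Finset.sum_eq_single (app ρ x)]
    · rw [if_pos rfl]
      ring
    · intro y _ hy
      rw [if_neg (Ne.symm hy)]
      push_cast
      ring
    · intro h
      exact absurd (mem_univ _) h
  rw [h3]
  simp only [key]
  push_cast
  simp

theorem sum_update (i : ι) (G : (ι → Bool) → ℂ) :
    ∑ x, G x = (1 / 2) * (∑ x, G (Function.update x i false) +
      ∑ x, G (Function.update x i true)) := by
  have h1 : ∑ x : ι → Bool, G (Function.update x i (!x i)) = ∑ x, G x := by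
    refine Finset.sum_bij' (fun x _ => Function.update x i (!x i))
      (fun x _ => Function.update x i (!x i)) ?_ ?_ ?_ ?_ ?_
    · exact fun _ _ => mem_univ _
    · exact fun _ _ => mem_univ _
    · intro x _
      simp
    · intro x _
      simp
    · exact fun _ _ => rfl
  have h2 : ∑ x, G (Function.update x i false) + ∑ x, G (Function.update x i true) =
      ∑ x, G x + ∑ x : ι → Bool, G (Function.update x i (!x i)) := by
    rw [← Finset.sum_add_distrib, ← Finset.sum_add_distrib]
    refine Finset.sum_congr rfl fun x _ => ?_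
    rcases hx : x i with _ | _
    · have : Function.update x i false = x := by rw [← hx, Function.update_eq_self]
      rw [this]
      rfl
    · have : Function.update x i true = x := by rw [← hx, Function.update_eq_self]
      rw [this, add_comm]
      rfl
  rw [h2, h1]
  ring

/-- Decision trees are almost orthogonal to product functions. -/
theorem base {κ : ℝ} (hκ0 : 0 ≤ κ) (hκ1 : κ ≤ 1) (T : ℕ) :
    ∀ (f : (ι → Bool) → Bool) (u : ι → Bool → ℂ) (S : Finset ι), DTle T f →
      (∀ i b, ‖u i b‖ ≤ 1) → (∀ i ∈ S, ‖u i false + u i true‖ ≤ 2 * κ) →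
      ‖∑ x, if f x = true then ∏ i, u i (x i) else 0‖ ≤
        2 ^ Fintype.card ι * κ ^ (S.card - T) := by
  have hconst : ∀ (f : (ι → Bool) → Bool) (u : ι → Bool → ℂ) (S : Finset ι),
      (∃ b, ∀ x, f x = b) → (∀ i b, ‖u i b‖ ≤ 1) →
      (∀ i ∈ S, ‖u i false + u i true‖ ≤ 2 * κ) →
      ‖∑ x, if f x = true then ∏ i, u i (x i) else 0‖ ≤ 2 ^ Fintype.card ι * κ ^ S.card := by
    rintro f u S ⟨b, hb⟩ hu hS
    cases b
    · simp only [hb, Bool.false_eq_true, if_false, Finset.sum_const_zero, norm_zero]
      positivity
    · simp only [hb, if_true]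
      have h1 : ∑ x : ι → Bool, ∏ i, u i (x i) = ∏ i, ∑ b, u i b := by
        rw [Finset.prod_univ_sum, Fintype.piFinset_univ]
      rw [h1, norm_prod]
      have h2 : ∀ i, ‖∑ b, u i b‖ ≤ 2 * if i ∈ S then κ else 1 := by
        intro i
        rw [Fintype.sum_bool]
        by_cases hi : i ∈ S
        · rw [if_pos hi, add_comm]
          exact hS i hi
        · rw [if_neg hi]
          refine (norm_add_le _ _).trans ?_
          linarith [hu i true, hu i false]
      refine (Finset.prod_le_prod (fun i _ => norm_nonneg _) fun i _ => h2 i).trans ?_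
      rw [Finset.prod_mul_distrib, Finset.prod_const, Finset.card_univ, Finset.prod_ite_mem,
        Finset.univ_inter, Finset.prod_const]
  have hanti : ∀ {a b : ℕ}, b ≤ a → κ ^ a ≤ κ ^ b := fun h => pow_le_pow_of_le_one hκ0 hκ1 h
  induction T with
  | zero =>
    intro f u S hf hu hS
    exact hconst f u S hf hu hS
  | succ T ih =>
    rintro f u S (hf | ⟨i, hf⟩) hu hS
    · refine (hconst f u S hf hu hS).trans ?_
      exact mul_le_mul_of_nonneg_left (hanti (Nat.sub_le _ _)) (by positivity)
    · rw [sum_update i]
      have h1 : ∀ b : Bool, ‖∑ x : ι → Bool, if f (Function.update x i b) = true then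
          ∏ j, u j (Function.update x i b j) else 0‖ ≤
          2 ^ Fintype.card ι * κ ^ (S.card - (T + 1)) := by
        intro b
        have h2 := ih (fun x => f (Function.update x i b))
          (fun j => if j = i then fun _ => u i b else u j) (S.erase i) (hf b) (by
            intro j c
            by_cases hj : j = i
            · simp only [hj, if_true]
              exact hu i b
            · simp only [hj, if_false]
              exact hu j c) (by
            intro j hj
            have hji := Finset.ne_of_mem_erase hj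
            simp only [hji, if_false]
            exact hS j (Finset.mem_of_mem_erase hj))
        have h3 : ∀ x : ι → Bool, (∏ j, (if j = i then fun _ => u i b else u j) (x j)) =
            ∏ j, u j (Function.update x i b j) := by
          intro x
          refine Finset.prod_congr rfl fun j _ => ?_
          by_cases hj : j = i
          · subst hj
            simp
          · simp [hj]
        simp only [h3] at h2
        refine h2.trans (mul_le_mul_of_nonneg_left (hanti ?_) (by positivity))
        have := Finset.pred_card_le_card_erase (s := S) (a := i)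
        omega
      calc ‖(1 / 2 : ℂ) * ((∑ x : ι → Bool, if f (Function.update x i false) = true then
              ∏ j, u j (Function.update x i false j) else 0) +
            ∑ x : ι → Bool, if f (Function.update x i true) = true then
              ∏ j, u j (Function.update x i true j) else 0)‖
          ≤ (1 / 2) * (2 ^ Fintype.card ι * κ ^ (S.card - (T + 1)) +
              2 ^ Fintype.card ι * κ ^ (S.card - (T + 1))) := by
            rw [norm_mul]
            have : ‖(1 / 2 : ℂ)‖ = 1 / 2 := by norm_num
            rw [this]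
            refine mul_le_mul_of_nonneg_left ((norm_add_le _ _).trans ?_) (by norm_num)
            exact add_le_add (h1 false) (h1 true)
        _ = _ := by ring

/-! ## gates -/

/-- A gate: OR, AND or NOR of functions of depth at most one and of gates of smaller level. -/
def GateOK {s : ℕ} (lev : Fin s → ℕ) (h : Fin s → (ι → Bool) → Bool) (g : Fin s) : Prop :=
  ∃ A : Set ((ι → Bool) → Bool), (∀ a ∈ A, DTle 1 a ∨ ∃ k, lev k < lev g ∧ a = h k) ∧
    ((∀ x, h g x = true ↔ ∃ a ∈ A, a x = true) ∨ (∀ x, h g x = true ↔ ∀ a ∈ A, a x = true) ∨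
      (∀ x, h g x = true ↔ ∀ a ∈ A, a x = false))

theorem GateOK.app {s : ℕ} {lev : Fin s → ℕ} {h : Fin s → (ι → Bool) → Bool} {g : Fin s}
    (H : GateOK lev h g) (ρ : ι → Option Bool) : GateOK lev (fun k x => h k (app ρ x)) g := by
  obtain ⟨A, hA, hg⟩ := H
  refine ⟨(fun (a : (ι → Bool) → Bool) x => a (SW.app ρ x)) '' A, ?_, ?_⟩
  · rintro _ ⟨a, ha, rfl⟩
    rcases hA a ha with h1 | ⟨k, hk, rfl⟩
    · exact Or.inl (h1.app ρ)
    · exact Or.inr ⟨k, hk, rfl⟩
  · rcases hg with hg | hg | hg
    · left
      intro x
      rw [hg]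
      simp
    · right; left
      intro x
      rw [hg]
      simp
    · right; right
      intro x
      rw [hg]
      simp

theorem gate_dnf {s : ℕ} {lev : Fin s → ℕ} {h : Fin s → (ι → Bool) → Bool} {g : Fin s}
    (H : GateOK lev h g) {T : ℕ} (hT : 1 ≤ T) (hlow : ∀ k, lev k < lev g → DTle T (h k)) :
    ∃ (n : ℕ) (f : (ι → Bool) → Bool), IsDNF T n f ∧ ∃ φ : Bool → Bool, ∀ x, h g x = φ (f x) := by
  obtain ⟨A, hA, hg⟩ := H
  have hA' : ∀ a ∈ A, DTle T a := by
    intro a ha
    rcases hA a ha with h1 | ⟨k, hk, rfl⟩
    · exact h1.mono hT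
    · exact hlow k hk
  rcases hg with hg | hg | hg
  · obtain ⟨n, hn⟩ := exists_isDNF A hA' (h g) hg
    exact ⟨n, h g, hn, id, fun _ => rfl⟩
  · obtain ⟨n, hn⟩ := exists_isDNF ((fun (a : (ι → Bool) → Bool) x => !a x) '' A) (by
      rintro _ ⟨a, ha, rfl⟩
      exact (hA' a ha).map (!·)) (fun x => !h g x) (by
      intro x
      simp only [Bool.not_eq_true', Set.mem_image, exists_exists_and_eq_and]
      rw [← Bool.not_eq_true, hg x]
      push Not
      simp)
    exact ⟨n, _, hn, (!·), fun x => by simp⟩
  · obtain ⟨n, hn⟩ := exists_isDNF A hA' (fun x => !h g x) (by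
      intro x
      rw [Bool.not_eq_true', ← Bool.not_eq_true, hg x]
      push Not
      simp)
    exact ⟨n, _, hn, (!·), fun x => by simp⟩

/-- Parameters of the switching lemma. -/
structure Par (p α : ℝ) (T : ℕ) : Prop where
  p0 : 0 < p
  p1 : p < 1
  α0 : 0 < α
  α1 : α ≤ 1
  T1 : 1 ≤ T
  le : ∀ k ≤ T, (2 * p / α + (1 - p) / 2) ^ k ≤ 2 * ((1 - p) / 2) ^ k

theorem gate_prob {p α : ℝ} {T : ℕ} (P : Par p α T) {s : ℕ} {lev : Fin s → ℕ}
    {h : Fin s → (ι → Bool) → Bool} {g : Fin s}
    (H : GateOK lev h g) (hlow : ∀ k, lev k < lev g → DTle T (h k)) :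
    W p (fun ρ => ¬ DTle T fun x => h g (app ρ x)) ≤ α ^ (T + 1) := by
  obtain ⟨n, f, hf, φ, hφ⟩ := gate_dnf H P.T1 hlow
  have h1 := switching P.p0 P.p1 P.α0 P.α1 T P.le n f hf (fun _ => True) (fun _ _ _ h => h) (T + 1)
  rw [W_true, mul_one] at h1
  refine le_trans (W_mono P.p0.le P.p1.le fun ρ hρ => ⟨trivial, ?_⟩) h1
  intro t ht
  by_contra hlt
  refine hρ ?_
  simp only [hφ]
  exact DTle.map φ (ht.mono (by omega))

/-- The decay after `d` rounds. -/
noncomputable def yy (p κ : ℝ) : ℕ → ℝ
  | 0 => κ
  | d + 1 => (1 - p) + p * yy p κ d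

theorem yy_eq (p κ : ℝ) (d : ℕ) : yy p κ d = 1 - p ^ d * (1 - κ) := by
  induction d with
  | zero => simp [yy]
  | succ d ih =>
    rw [yy, ih, pow_succ]
    ring

theorem yy_nonneg {p κ : ℝ} (hp0 : 0 ≤ p) (hp1 : p ≤ 1) (hκ : 0 ≤ κ) (d : ℕ) :
    0 ≤ yy p κ d := by
  induction d with
  | zero => exact hκ
  | succ d ih =>
    rw [yy]
    have := mul_nonneg hp0 ih
    linarith

theorem sum_wt_pow (p y : ℝ) (S : Finset ι) :
    ∑ ρ : ι → Option Bool, wt p ρ * y ^ (S.filter fun j => ρ j = none).card =
      ((1 - p) + p * y) ^ S.card := by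
  have h1 : ∀ ρ : ι → Option Bool, wt p ρ * y ^ (S.filter fun j => ρ j = none).card =
      ∏ i, (w1 p (ρ i) * if i ∈ S then (if ρ i = none then y else 1) else 1) := by
    intro ρ
    unfold wt
    rw [Finset.prod_mul_distrib, Finset.prod_ite_mem, Finset.univ_inter, Finset.prod_ite,
      Finset.prod_const, Finset.prod_const_one, mul_one]
  simp only [h1]
  rw [sum_prod_option fun i o => w1 p o * if i ∈ S then (if o = none then y else 1) else 1]
  have h2 : ∀ i : ι, ∑ o : Option Bool, (w1 p o * if i ∈ S then
      (if o = none then y else 1) else 1) = if i ∈ S then (1 - p) + p * y else 1 := by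
    intro i
    rw [Fintype.sum_option, Fintype.sum_bool]
    by_cases hi : i ∈ S
    · simp only [hi, if_true, w1]
      simp
      ring
    · simp only [hi, if_false, w1]
      ring
  simp only [h2]
  rw [Finset.prod_ite_mem, Finset.univ_inter, Finset.prod_const]

/-- **Correlation of constant depth circuits with product functions.** -/
theorem rounds {p α κ : ℝ} {T : ℕ} (P : Par p α T) (hκ0 : 0 < κ) (hκ1 : κ ≤ 1) {s : ℕ}
    (lev : Fin s → ℕ) (out : Fin s) (d : ℕ) :
    ∀ (i : ℕ) (h : Fin s → (ι → Bool) → Bool) (u : ι → Bool → ℂ) (S : Finset ι),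
      (∀ g, GateOK lev h g) → (∀ g, lev g < i → DTle T (h g)) → lev out < i + d →
      (∀ i b, ‖u i b‖ ≤ 1) → (∀ i ∈ S, ‖u i false + u i true‖ ≤ 2 * κ) →
      ‖∑ x, if h out x = true then ∏ i, u i (x i) else 0‖ ≤
        2 ^ Fintype.card ι * (d * s * α ^ (T + 1) + (1 / κ) ^ T * yy p κ d ^ S.card) := by
  classical
  induction d with
  | zero =>
    intro i h u S _ hlow hout hu hS
    refine (base hκ0.le hκ1 T (h out) u S (hlow out hout) hu hS).trans ?_
    refine mul_le_mul_of_nonneg_left ?_ (by positivity)
    push_cast
    rw [zero_mul, zero_mul, zero_add]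
    show κ ^ (S.card - T) ≤ (1 / κ) ^ T * κ ^ S.card
    rw [one_div, inv_pow, ← div_eq_inv_mul, le_div_iff₀ (pow_pos hκ0 _), ← pow_add]
    exact pow_le_pow_of_le_one hκ0.le hκ1 (by omega)
  | succ d ih =>
    intro i h u S hG hlow hout hu hS
    have hy0 := yy_nonneg P.p0.le P.p1.le hκ0.le d
    have hα : 0 ≤ α ^ (T + 1) := pow_nonneg P.α0.le _
    rw [← sum_app p]
    set bad : (ι → Option Bool) → Prop := fun ρ => ∃ g ∈ (univ : Finset (Fin s)),
      lev g = i ∧ ¬ DTle T fun x => h g (app ρ x) with hbad
    have hWbad : W p bad ≤ s * α ^ (T + 1) := by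
      refine (W_exists_le P.p0.le P.p1.le univ _).trans ?_
      have h1 : ∀ g ∈ (univ : Finset (Fin s)),
          W p (fun ρ => lev g = i ∧ ¬ DTle T fun x => h g (app ρ x)) ≤ α ^ (T + 1) := by
        intro g _
        by_cases hg : lev g = i
        · refine le_trans (W_mono P.p0.le P.p1.le fun ρ hρ => hρ.2) (gate_prob P (hG g) ?_)
          intro k hk
          exact hlow k (by omega)
        · have : W p (fun ρ => lev g = i ∧ ¬ DTle T fun x => h g (app ρ x)) =
              W p fun _ : ι → Option Bool => False := W_congr fun ρ => by simp [hg]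
          rw [this, W_false]
          exact hα
      refine (Finset.sum_le_sum h1).trans (le_of_eq ?_)
      rw [Finset.sum_const, Finset.card_univ, Fintype.card_fin, nsmul_eq_mul]
    -- a single restriction
    have hone : ∀ ρ : ι → Option Bool,
        ‖∑ x, if h out (app ρ x) = true then ∏ j, u j (app ρ x j) else 0‖ ≤
          2 ^ Fintype.card ι * ((if bad ρ then 1 else 0) + d * s * α ^ (T + 1) +
            (1 / κ) ^ T * yy p κ d ^ (S.filter fun j => ρ j = none).card) := by
      intro ρ
      have hpos2 : 0 ≤ (1 / κ) ^ T * yy p κ d ^ (S.filter fun j => ρ j = none).card :=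
        mul_nonneg (by positivity) (pow_nonneg hy0 _)
      have hpos1 : 0 ≤ (d : ℝ) * s * α ^ (T + 1) := by positivity
      by_cases hb : bad ρ
      · rw [if_pos hb]
        have h1 : ‖∑ x, if h out (app ρ x) = true then ∏ j, u j (app ρ x j) else 0‖ ≤
            2 ^ Fintype.card ι * 1 := by
          refine (norm_sum_le _ _).trans ?_
          have h2 : ∀ x ∈ (univ : Finset (ι → Bool)),
              ‖if h out (app ρ x) = true then ∏ j, u j (app ρ x j) else 0‖ ≤ 1 := by
            intro x _
            split
            · rw [norm_prod]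
              exact Finset.prod_le_one (fun _ _ => norm_nonneg _) fun j _ => hu _ _
            · simp
          refine (Finset.sum_le_sum h2).trans (le_of_eq ?_)
          rw [Finset.sum_const, Finset.card_univ, Fintype.card_fun, Fintype.card_bool,
            nsmul_eq_mul]
          push_cast
          ring
        refine h1.trans (mul_le_mul_of_nonneg_left ?_ (by positivity))
        linarith
      · rw [if_neg hb, zero_add]
        set u' : ι → Bool → ℂ := fun j => match ρ j with
          | none => u j
          | some b => fun _ => u j b with hu'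
        have hprod : ∀ x : ι → Bool, ∏ j, u j (app ρ x j) = ∏ j, u' j (x j) := by
          intro x
          refine Finset.prod_congr rfl fun j _ => ?_
          simp only [hu', app]
          rcases ρ j with _ | b
          · rfl
          · rfl
        simp only [hprod]
        refine ih (i + 1) (fun k x => h k (app ρ x)) u' (S.filter fun j => ρ j = none)
          (fun g => (hG g).app ρ) ?_ (by omega) ?_ ?_
        · intro g hg
          rcases Nat.lt_succ_iff_lt_or_eq.1 hg with h1 | h1
          · exact (hlow g h1).app ρ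
          · by_contra hcon
            exact hb ⟨g, mem_univ g, h1, hcon⟩
        · intro j b
          simp only [hu']
          rcases ρ j with _ | c
          · exact hu j b
          · exact hu j c
        · intro j hj
          rw [Finset.mem_filter] at hj
          simp only [hu', hj.2]
          exact hS j hj.1
    calc ‖∑ ρ : ι → Option Bool, (wt p ρ : ℂ) * ∑ x,
            (if h out (app ρ x) = true then ∏ j, u j (app ρ x j) else 0)‖
        ≤ ∑ ρ : ι → Option Bool, wt p ρ * (2 ^ Fintype.card ι *
            ((if bad ρ then 1 else 0) + d * s * α ^ (T + 1) +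
            (1 / κ) ^ T * yy p κ d ^ (S.filter fun j => ρ j = none).card)) := by
          refine (norm_sum_le _ _).trans (Finset.sum_le_sum fun ρ _ => ?_)
          have hw := wt_nonneg P.p0.le P.p1.le ρ
          rw [norm_mul, Complex.norm_real, Real.norm_of_nonneg hw]
          exact mul_le_mul_of_nonneg_left (hone ρ) hw
      _ = 2 ^ Fintype.card ι * (W p bad + d * s * α ^ (T + 1) * (∑ ρ : ι → Option Bool, wt p ρ) +
            (1 / κ) ^ T * ∑ ρ : ι → Option Bool,
              wt p ρ * yy p κ d ^ (S.filter fun j => ρ j = none).card) := by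
          unfold W
          rw [Finset.mul_sum, Finset.mul_sum, ← Finset.sum_add_distrib, ← Finset.sum_add_distrib,
            Finset.mul_sum]
          refine Finset.sum_congr rfl fun ρ _ => ?_
          split
          · ring
          · ring
      _ ≤ 2 ^ Fintype.card ι * (s * α ^ (T + 1) + d * s * α ^ (T + 1) +
            (1 / κ) ^ T * yy p κ (d + 1) ^ S.card) := by
          rw [sum_wt, sum_wt_pow, mul_one]
          refine mul_le_mul_of_nonneg_left ?_ (by positivity)
          have : yy p κ (d + 1) = (1 - p) + p * yy p κ d := rfl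
          rw [this]
          linarith
      _ = _ := by
          push_cast
          ring

end Pool.Agent.SW
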