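import Pool.Agent.SW.Restr

/-!
# The switching lemma
-/

set_option autoImplicit false
set_option linter.unusedSectionVars false

namespace Pool.Agent.SW

open Finset

variable {ι : Type} [Fintype ι] [DecidableEq ι]

/-! ## disjunctive normal forms -/

/-- Conjunctions of at most `T` literals, and the constant false. -/
def IsTerm (T : ℕ) (g : (ι → Bool) → Bool) : Prop :=
  (∀ x, g x = false) ∨ ∃ (A : Finset ι) (b : ι → Bool), A.card ≤ T ∧
    ∀ x, g x = true ↔ ∀ i ∈ A, x i = b i

/-- Disjunctions of `n` terms. -/
def IsDNF (T : ℕ) : ℕ → ((ι → Bool) → Bool) → Prop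
  | 0, f => ∀ x, f x = false
  | n + 1, f => ∃ g f' : (ι → Bool) → Bool, IsTerm T g ∧ IsDNF T n f' ∧ ∀ x, f x = (g x || f' x)

theorem IsTerm.app {T : ℕ} {g : (ι → Bool) → Bool} (h : IsTerm T g) (ρ : ι → Option Bool) :
    IsTerm T fun x => g (app ρ x) := by
  rcases h with h | ⟨A, b, hA, h⟩
  · exact Or.inl fun x => h _
  · by_cases hk : ∃ i ∈ A, ρ i = some (!b i)
    · obtain ⟨i, hi, hk⟩ := hk
      refine Or.inl fun x => ?_
      by_contra hne
      have h1 := (h (SW.app ρ x)).1 (by simpa using hne) i hi
      simp [SW.app, hk] at h1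
    · push Not at hk
      refine Or.inr ⟨A.filter fun i => ρ i = none, b, (Finset.card_filter_le _ _).trans hA,
        fun x => ?_⟩
      rw [h]
      constructor
      · intro h1 i hi
        rw [Finset.mem_filter] at hi
        have := h1 i hi.1
        simpa [SW.app, hi.2] using this
      · intro h1 i hi
        rcases hρ : ρ i with _ | c
        · have := h1 i (Finset.mem_filter.2 ⟨hi, hρ⟩)
          simpa [SW.app, hρ] using this
        · have := hk i hi
          rw [hρ] at this
          simp only [SW.app, hρ, Option.getD_some]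
          revert this
          cases c <;> cases b i <;> simp

theorem IsDNF.app {T n : ℕ} (ρ : ι → Option Bool) : ∀ {f : (ι → Bool) → Bool}, IsDNF T n f →
    IsDNF T n fun x => f (app ρ x) := by
  induction n with
  | zero => exact fun h x => h _
  | succ n ih =>
    rintro f ⟨g, f', hg, hf', h⟩
    exact ⟨_, _, hg.app ρ, ih hf', fun x => h _⟩

theorem IsDNF.congr {T n : ℕ} {f f' : (ι → Bool) → Bool} (h : ∀ x, f x = f' x)
    (hf : IsDNF T n f) : IsDNF T n f' := by
  have : f = f' := funext h
  rwa [← this]

theorem IsDNF.or {T n m : ℕ} : ∀ {f f' : (ι → Bool) → Bool}, IsDNF T n f → IsDNF T m f' →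
    IsDNF T (n + m) fun x => f x || f' x := by
  induction n with
  | zero =>
    intro f f' hf hf'
    rw [Nat.zero_add]
    exact hf'.congr fun x => by rw [hf x, Bool.false_or]
  | succ n ih =>
    rintro f f' ⟨g, f₀, hg, hf₀, h⟩ hf'
    have e : n + 1 + m = (n + m) + 1 := by omega
    rw [e]
    refine ⟨g, _, hg, ih hf₀ hf', fun x => ?_⟩
    show (f x || f' x) = _
    rw [h x, Bool.or_assoc]

theorem IsDNF.and_lit {T n : ℕ} (i : ι) (b : Bool) : ∀ {f : (ι → Bool) → Bool}, IsDNF T n f →
    IsDNF (T + 1) n fun x => (x i == b) && f x := by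
  induction n with
  | zero =>
    intro f hf x
    simp [hf x]
  | succ n ih =>
    rintro f ⟨g, f', hg, hf', h⟩
    refine ⟨fun x => (x i == b) && g x, _, ?_, ih hf', fun x => by
      simp only [h x, Bool.and_or_distrib_left]⟩
    rcases hg with hg | ⟨A, c, hA, hg⟩
    · exact Or.inl fun x => by simp [hg x]
    · by_cases hi : i ∈ A ∧ c i ≠ b
      · refine Or.inl fun x => ?_
        by_contra hne
        simp only [Bool.not_eq_false, Bool.and_eq_true, beq_iff_eq] at hne
        exact hi.2 (((hg x).1 hne.2 i hi.1).symm.trans hne.1)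
      · refine Or.inr ⟨insert i A, Function.update c i b, (Finset.card_insert_le _ _).trans
          (Nat.succ_le_succ hA), fun x => ?_⟩
        simp only [Bool.and_eq_true, beq_iff_eq, hg, Finset.forall_mem_insert,
          Function.update_self]
        refine and_congr_right fun hx => forall₂_congr fun j hj => ?_
        by_cases hji : j = i
        · subst hji
          have : c j = b := by
            by_contra hc
            exact hi ⟨hj, hc⟩
          rw [Function.update_self, this]
        · rw [Function.update_of_ne hji]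

theorem IsTerm.mono {T T' : ℕ} (hT : T ≤ T') {g : (ι → Bool) → Bool} (h : IsTerm T g) :
    IsTerm T' g := by
  rcases h with h | ⟨A, b, hA, h⟩
  · exact Or.inl h
  · exact Or.inr ⟨A, b, hA.trans hT, h⟩

theorem IsDNF.mono {T T' n : ℕ} (hT : T ≤ T') : ∀ {f : (ι → Bool) → Bool}, IsDNF T n f →
    IsDNF T' n f := by
  induction n with
  | zero => exact fun h => h
  | succ n ih =>
    rintro f ⟨g, f', hg, hf', h⟩
    exact ⟨g, f', hg.mono hT, ih hf', h⟩

/-- A decision tree is a disjunctive normal form. -/
theorem DTle.isDNF {T : ℕ} : ∀ {f : (ι → Bool) → Bool}, DTle T f → ∃ n, IsDNF T n f := by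
  have hconst : ∀ (T : ℕ) (f : (ι → Bool) → Bool), (∃ b, ∀ x, f x = b) → ∃ n, IsDNF T n f := by
    rintro T f ⟨b, hb⟩
    cases b
    · exact ⟨0, hb⟩
    · refine ⟨1, f, fun _ => false, Or.inr ⟨∅, fun _ => false, by simp, fun x => ?_⟩,
        fun _ => rfl, fun x => (Bool.or_false _).symm⟩
      simp [hb x]
  induction T with
  | zero =>
    intro f h
    exact hconst 0 f h
  | succ T ih =>
    rintro f (h | ⟨i, h⟩)
    · exact hconst _ f h
    · obtain ⟨n, hn⟩ := ih (h false)
      obtain ⟨m, hm⟩ := ih (h true)
      refine ⟨n + m, ((hn.and_lit i false).or (hm.and_lit i true)).congr fun x => ?_⟩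
      rcases hx : x i with _ | _
      · have : Function.update x i false = x := by rw [← hx, Function.update_eq_self]
        simp [this]
      · have : Function.update x i true = x := by rw [← hx, Function.update_eq_self]
        simp [this]

/-- A disjunction of any family of decision trees is a disjunctive normal form. -/
theorem exists_isDNF {T : ℕ} (A : Set ((ι → Bool) → Bool)) (hA : ∀ a ∈ A, DTle T a)
    (f : (ι → Bool) → Bool) (hf : ∀ x, f x = true ↔ ∃ a ∈ A, a x = true) :
    ∃ n, IsDNF T n f := by
  classical
  have key : ∀ S : Finset ((ι → Bool) → Bool), (∀ a ∈ S, DTle T a) →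
      ∀ f : (ι → Bool) → Bool, (∀ x, f x = true ↔ ∃ a ∈ S, a x = true) → ∃ n, IsDNF T n f := by
    intro S
    induction S using Finset.induction_on with
    | empty =>
      intro _ f hf
      refine ⟨0, fun x => ?_⟩
      by_contra hne
      obtain ⟨a, ha, _⟩ := (hf x).1 (by simpa using hne)
      exact absurd ha (Finset.notMem_empty a)
    | insert a S ha ih =>
      intro hS f hf
      obtain ⟨n, hn⟩ := (hS a (Finset.mem_insert_self a S)).isDNF
      obtain ⟨m, hm⟩ := ih (fun b hb => hS b (Finset.mem_insert_of_mem hb))
        (fun x => decide (∃ b ∈ S, b x = true)) fun x => by simp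
      refine ⟨n + m, (hn.or hm).congr fun x => ?_⟩
      rw [Bool.eq_iff_iff, hf x]
      simp
  have hfin : A.Finite := Set.toFinite A
  refine key hfin.toFinset (fun a ha => hA a (hfin.mem_toFinset.1 ha)) f fun x => ?_
  rw [hf x]
  constructor
  · rintro ⟨a, ha, h⟩
    exact ⟨a, hfin.mem_toFinset.2 ha, h⟩
  · rintro ⟨a, ha, h⟩
    exact ⟨a, hfin.mem_toFinset.1 ha, h⟩

/-! ## the switching lemma -/

/-- Every decision tree has depth at least `s`. -/
def Deep (s : ℕ) (f : (ι → Bool) → Bool) : Prop := ∀ t, DTle t f → s ≤ t

/-- `ρ'` fixes more coordinates than `ρ`. -/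
def Ext (ρ ρ' : ι → Option Bool) : Prop := ∀ i, ρ i = none ∨ ρ' i = ρ i

theorem app_true_of_forall {A : Finset ι} {b : ι → Bool} {ρ : ι → Option Bool}
    (h : ∀ i ∈ A, ρ i = some (b i)) (x : ι → Bool) : ∀ i ∈ A, app ρ x i = b i := by
  intro i hi
  simp [app, h i hi]

theorem switching {p α : ℝ} (hp0 : 0 < p) (hp1 : p < 1) (hα0 : 0 < α) (hα1 : α ≤ 1) (T : ℕ)
    (hT : ∀ k ≤ T, (2 * p / α + (1 - p) / 2) ^ k ≤ 2 * ((1 - p) / 2) ^ k) (n : ℕ) :
    ∀ f : (ι → Bool) → Bool, IsDNF T n f →
      ∀ Δ : (ι → Option Bool) → Prop, (∀ ρ ρ', Ext ρ ρ' → Δ ρ → Δ ρ') → ∀ s : ℕ,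
        W p (fun ρ => Δ ρ ∧ Deep s fun x => f (app ρ x)) ≤ α ^ s * W p Δ := by
  induction n with
  | zero =>
    intro f hf Δ _ s
    rcases Nat.eq_zero_or_pos s with rfl | hs
    · rw [pow_zero, one_mul]
      exact W_mono hp0.le hp1.le fun ρ h => h.1
    · have : W p (fun ρ : ι → Option Bool => Δ ρ ∧ Deep s fun x => f (app ρ x)) =
          W p fun _ : ι → Option Bool => False := by
        refine W_congr fun ρ => ?_
        rw [iff_false]
        rintro ⟨_, h⟩
        have := h 0 ⟨false, fun x => hf _⟩
        omega
      rw [this, W_false]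
      exact mul_nonneg (pow_nonneg hα0.le _) (W_nonneg hp0.le hp1.le _)
  | succ n ih =>
    rintro f ⟨g, f', hg, hf', h⟩ Δ hΔ s
    rcases Nat.eq_zero_or_pos s with rfl | hs
    · rw [pow_zero, one_mul]
      exact W_mono hp0.le hp1.le fun ρ h => h.1
    rcases hg with hg | ⟨A, b, hA, hg⟩
    · have : f = f' := funext fun x => by rw [h x, hg x, Bool.false_or]
      rw [this]
      exact ih f' hf' Δ hΔ s
    set q : ℝ := (1 - p) / 2 with hq
    have hq0 : 0 < q := by rw [hq]; linarith
    -- patterns on `A`
    set pat : Finset ι → ι → Option Bool := fun Y i => if i ∈ Y then none else some (b i)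
      with hpat
    set kill : (ι → Option Bool) → Prop := fun ρ => ∃ i ∈ A, ρ i = some (!b i) with hkill
    set ins : Finset ι → (ι → Option Bool) → ι → Option Bool := fun Y ρ i =>
      if i ∈ A then pat Y i else ρ i with hins
    set ΔY : Finset ι → (ι → Option Bool) → Prop := fun Y ρ => Δ (ins Y ρ) with hΔY
    set σ : Finset ι → Finset ι → ι → Option Bool := fun Y P i =>
      if i ∈ A then (if i ∈ Y then some (decide (i ∈ P)) else some (b i)) else none with hσ
    -- the two parts
    have hsplit : W p (fun ρ => Δ ρ ∧ Deep s fun x => f (app ρ x)) ≤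
        W p (fun ρ => (Δ ρ ∧ kill ρ) ∧ Deep s fun x => f' (app ρ x)) +
        ∑ Y ∈ A.powerset.erase ∅, ∑ P ∈ Y.powerset,
          W p (fun ρ => (∀ i ∈ A, ρ i = pat Y i) ∧ (ΔY Y ρ ∧
            Deep (s - Y.card) fun x => f' (app (σ Y P) (app ρ x)))) := by
      refine le_trans ?_ (add_le_add le_rfl ((W_exists_le hp0.le hp1.le (A.powerset.erase ∅)
        (fun Y ρ => ∃ P ∈ Y.powerset, (∀ i ∈ A, ρ i = pat Y i) ∧ (ΔY Y ρ ∧
            Deep (s - Y.card) fun x => f' (app (σ Y P) (app ρ x))))).trans
        (Finset.sum_le_sum fun Y _ => W_exists_le hp0.le hp1.le Y.powerset _)))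
      refine le_trans (W_mono hp0.le hp1.le ?_) (W_or_le (ι := ι) hp0.le hp1.le _ _)
      rintro ρ ⟨hρΔ, hρ⟩
      by_cases hk : kill ρ
      · left
        refine ⟨⟨hρΔ, hk⟩, ?_⟩
        obtain ⟨i, hi, hki⟩ := hk
        have : (fun x => f (app ρ x)) = fun x => f' (app ρ x) := by
          funext x
          rw [h]
          have : g (app ρ x) = false := by
            by_contra hne
            have h1 := (hg (app ρ x)).1 (by simpa using hne) i hi
            simp [app, hki] at h1
          rw [this, Bool.false_or]
        rwa [this] at hρ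
      · right
        have hk' : ∀ i ∈ A, ρ i ≠ some (!b i) := fun i hi hc => hk ⟨i, hi, hc⟩
        set Y := A.filter fun i => ρ i = none with hY
        have hYA : Y ⊆ A := Finset.filter_subset _ _
        have hpatY : ∀ i ∈ A, ρ i = pat Y i := by
          intro i hi
          simp only [hpat]
          rcases hρi : ρ i with _ | c
          · have : i ∈ Y := Finset.mem_filter.2 ⟨hi, hρi⟩
            rw [if_pos this]
          · have : i ∉ Y := by
              intro hc
              rw [(Finset.mem_filter.1 hc).2] at hρi
              exact absurd hρi (by simp)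
            rw [if_neg this]
            have h1 := hk' i hi
            rw [hρi] at h1
            revert h1
            cases c <;> cases b i <;> simp
        have hYne : Y ≠ ∅ := by
          intro hc
          have h1 : ∀ i ∈ A, ρ i = some (b i) := by
            intro i hi
            rw [hpatY i hi, hc]
            simp [hpat]
          have := hρ 0 ⟨true, fun x => by
            show f (app ρ x) = true
            rw [h, (hg _).2 (app_true_of_forall h1 x), Bool.true_or]⟩
          omega
        have hins' : ins Y ρ = ρ := by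
          funext i
          simp only [hins]
          by_cases hi : i ∈ A
          · rw [if_pos hi, hpatY i hi]
          · rw [if_neg hi]
        refine ⟨Y, Finset.mem_erase.2 ⟨hYne, Finset.mem_powerset.2 hYA⟩, ?_⟩
        by_contra hcon
        push Not at hcon
        -- build a shallow tree
        have hall : ∀ z : ι → Bool, DTle (s - Y.card - 1) fun x => f (app ρ fun i =>
            if i ∈ Y then z i else x i) := by
          intro z
          set P := Y.filter fun i => z i = true with hP
          have happ : ∀ x : ι → Bool, (app ρ fun i => if i ∈ Y then z i else x i) =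
              app (σ Y P) (app ρ x) := by
            intro x
            funext i
            by_cases hi : i ∈ A
            · by_cases hiY : i ∈ Y
              · have hρi : ρ i = none := (Finset.mem_filter.1 hiY).2
                simp only [app, hσ, if_pos hi, if_pos hiY, hρi, Option.getD_none,
                  Option.getD_some, hP, Finset.mem_filter]
                cases z i <;> simp [hiY]
              · have hρi : ρ i = some (b i) := by
                  rw [hpatY i hi]
                  simp [hpat, hiY]
                simp [app, hσ, hi, hiY, hρi]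
            · have hiY : i ∉ Y := fun hc => hi (hYA hc)
              simp [app, hσ, hi, hiY]
          by_cases hsat : ∀ i ∈ Y, z i = b i
          · -- the term is satisfied
            refine DTle.of_const ⟨true, fun x => ?_⟩
            rw [h, (hg _).2 ?_, Bool.true_or]
            intro i hi
            rw [happ]
            by_cases hiY : i ∈ Y
            · have h1 := hsat i hiY
              simp only [app, hσ, if_pos hi, if_pos hiY, Option.getD_some, hP,
                Finset.mem_filter]
              rw [← h1]
              cases z i <;> simp [hiY]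
            · simp [app, hσ, hi, hiY]
          · push Not at hsat
            obtain ⟨i₀, hi₀, hne₀⟩ := hsat
            have h1 : ∀ x : ι → Bool, f (app ρ fun i => if i ∈ Y then z i else x i) =
                f' (app (σ Y P) (app ρ x)) := by
              intro x
              rw [h, ← happ]
              have : g (app ρ fun i => if i ∈ Y then z i else x i) = false := by
                by_contra hne
                have h2 := (hg _).1 (by simpa using hne) i₀ (hYA hi₀)
                have hρi : ρ i₀ = none := (Finset.mem_filter.1 hi₀).2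
                simp only [app, hρi, Option.getD_none, if_pos hi₀] at h2
                exact hne₀ h2
              rw [this, Bool.false_or]
            simp only [h1]
            have h2 := hcon P (Finset.mem_powerset.2 (Finset.filter_subset _ _)) hpatY
              (by simp only [hΔY, hins']; exact hρΔ)
            unfold Deep at h2
            push Not at h2
            obtain ⟨t, ht, hts⟩ := h2
            exact ht.mono (by omega)
        have hlt : Y.card < s := by
          by_contra hge
          have h2 := hcon ∅ (Finset.mem_powerset.2 (Finset.empty_subset _)) hpatY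
            (by simp only [hΔY, hins']; exact hρΔ)
          unfold Deep at h2
          push Not at h2
          obtain ⟨t, _, hts⟩ := h2
          omega
        have h3 := DTle.query (f := fun x => f (app ρ x)) Y (t := s - Y.card - 1) hall
        have h4 := hρ _ h3
        omega
    -- independence of `ΔY` and of the substituted function from `A`
    have hinsu : ∀ (Y : Finset ι) (ρ : ι → Option Bool), ∀ a ∈ A, ∀ o',
        ins Y (Function.update ρ a o') = ins Y ρ := by
      intro Y ρ a ha o'
      funext i
      simp only [hins]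
      by_cases hi : i ∈ A
      · rw [if_pos hi, if_pos hi]
      · rw [if_neg hi, if_neg hi]
        have hne : i ≠ a := fun hc => hi (hc ▸ ha)
        rw [Function.update_of_ne hne]
    have hσu : ∀ (Y P : Finset ι) (ρ : ι → Option Bool), ∀ a ∈ A, ∀ o', ∀ x : ι → Bool,
        app (σ Y P) (app (Function.update ρ a o') x) = app (σ Y P) (app ρ x) := by
      intro Y P ρ a ha o' x
      funext i
      by_cases hi : i ∈ A
      · by_cases hiY : i ∈ Y
        · simp [app, hσ, hi, hiY]
        · simp [app, hσ, hi, hiY]
      · have hne : i ≠ a := fun hc => hi (hc ▸ ha)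
        simp [app, hσ, hi, Function.update_of_ne hne]
    have hclosed : ∀ Y ρ ρ', Ext ρ ρ' → ΔY Y ρ → ΔY Y ρ' := by
      intro Y ρ ρ' he hρ
      refine hΔ _ _ ?_ hρ
      intro i
      simp only [hins]
      by_cases hi : i ∈ A
      · rw [if_pos hi, if_pos hi]
        exact Or.inr rfl
      · rw [if_neg hi, if_neg hi]
        exact he i
    have hempty : ∀ Y, Y ⊆ A → W p (ΔY Y) ≤ W p (ΔY ∅) := by
      intro Y _
      refine W_mono hp0.le hp1.le fun ρ hρ => hΔ _ _ ?_ hρ
      intro i
      simp only [hins, hpat]
      by_cases hi : i ∈ A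
      · by_cases hiY : i ∈ Y
        · rw [if_pos hi, if_pos hiY]
          exact Or.inl rfl
        · rw [if_pos hi, if_pos hi, if_neg hiY, if_neg (Finset.notMem_empty i)]
          exact Or.inr rfl
      · rw [if_neg hi, if_neg hi]
        exact Or.inr rfl
    have hwpat : ∀ Y, Y ⊆ A → ∏ i ∈ A, w1 p (pat Y i) = p ^ Y.card * q ^ (A.card - Y.card) := by
      intro Y hY
      have h1 : ∀ i ∈ A, w1 p (pat Y i) = if i ∈ Y then p else q := by
        intro i _
        simp only [hpat]
        split <;> rfl
      rw [Finset.prod_congr rfl h1, Finset.prod_ite, Finset.prod_const, Finset.prod_const]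
      congr 2
      · rw [Finset.filter_mem_eq_inter, Finset.inter_eq_right.2 hY]
      · rw [Finset.filter_not, Finset.filter_mem_eq_inter, Finset.inter_eq_right.2 hY,
          Finset.card_sdiff_of_subset hY]
    -- the killed part
    have hpart1 : W p (fun ρ => (Δ ρ ∧ kill ρ) ∧ Deep s fun x => f' (app ρ x)) ≤
        α ^ s * W p (fun ρ => Δ ρ ∧ kill ρ) := by
      refine ih f' hf' (fun ρ => Δ ρ ∧ kill ρ) ?_ s
      rintro ρ ρ' he ⟨h1, i, hi, h2⟩
      refine ⟨hΔ _ _ he h1, i, hi, ?_⟩
      rcases he i with h3 | h3
      · rw [h3] at h2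
        exact absurd h2 (by simp)
      · rw [h3, h2]
    -- one pattern
    have hpart2 : ∀ Y ∈ A.powerset.erase ∅, ∀ P ∈ Y.powerset,
        W p (fun ρ => (∀ i ∈ A, ρ i = pat Y i) ∧ (ΔY Y ρ ∧
            Deep (s - Y.card) fun x => f' (app (σ Y P) (app ρ x)))) ≤
        α ^ s * W p (ΔY ∅) * ((p / α) ^ Y.card * q ^ (A.card - Y.card)) := by
      intro Y hY P _
      have hYA : Y ⊆ A := Finset.mem_powerset.1 (Finset.mem_of_mem_erase hY)
      rw [W_pat A (pat Y) _ ?_, hwpat Y hYA]
      · have h1 := ih (fun x => f' (app (σ Y P) x)) (hf'.app _) (ΔY Y) (hclosed Y) (s - Y.card)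
        have h2 : α ^ (s - Y.card) ≤ α ^ s * (1 / α) ^ Y.card := by
          rw [one_div, inv_pow, ← div_eq_mul_inv, le_div_iff₀ (pow_pos hα0 _), ← pow_add]
          exact pow_le_pow_of_le_one hα0.le hα1 (by omega)
        have h3 : 0 ≤ W p (ΔY Y) := W_nonneg hp0.le hp1.le _
        calc p ^ Y.card * q ^ (A.card - Y.card) *
              W p (fun ρ => ΔY Y ρ ∧ Deep (s - Y.card) fun x => f' (app (σ Y P) (app ρ x)))
            ≤ p ^ Y.card * q ^ (A.card - Y.card) * (α ^ (s - Y.card) * W p (ΔY Y)) :=
              mul_le_mul_of_nonneg_left h1 (by positivity)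
          _ ≤ p ^ Y.card * q ^ (A.card - Y.card) *
              ((α ^ s * (1 / α) ^ Y.card) * W p (ΔY ∅)) := by
              refine mul_le_mul_of_nonneg_left ?_ (by positivity)
              exact mul_le_mul h2 (hempty Y hYA) h3 (by positivity)
          _ = α ^ s * W p (ΔY ∅) * ((p / α) ^ Y.card * q ^ (A.card - Y.card)) := by
              rw [div_pow, one_div, inv_pow]
              ring
      · intro ρ a ha o'
        simp only [hΔY, hinsu Y ρ a ha o', hσu Y P ρ a ha o']
    -- summation
    have hsum : ∑ Y ∈ A.powerset.erase ∅, ∑ P ∈ Y.powerset,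
          W p (fun ρ => (∀ i ∈ A, ρ i = pat Y i) ∧ (ΔY Y ρ ∧
            Deep (s - Y.card) fun x => f' (app (σ Y P) (app ρ x)))) ≤
        α ^ s * W p (ΔY ∅) * q ^ A.card := by
      have h1 : ∑ Y ∈ A.powerset.erase ∅, ∑ P ∈ Y.powerset,
          W p (fun ρ => (∀ i ∈ A, ρ i = pat Y i) ∧ (ΔY Y ρ ∧
            Deep (s - Y.card) fun x => f' (app (σ Y P) (app ρ x)))) ≤
          ∑ Y ∈ A.powerset.erase ∅, α ^ s * W p (ΔY ∅) *
            ((2 * p / α) ^ Y.card * q ^ (A.card - Y.card)) := by
        refine Finset.sum_le_sum fun Y hY => ?_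
        refine (Finset.sum_le_sum fun P hP => hpart2 Y hY P hP).trans (le_of_eq ?_)
        rw [Finset.sum_const, Finset.card_powerset, nsmul_eq_mul]
        push_cast
        have : (2 * p / α) ^ Y.card = 2 ^ Y.card * (p / α) ^ Y.card := by
          rw [← mul_pow]
          congr 1
          ring
        rw [this]
        ring
      refine h1.trans ?_
      rw [← Finset.mul_sum]
      refine mul_le_mul_of_nonneg_left ?_ (mul_nonneg (pow_nonneg hα0.le _)
        (W_nonneg hp0.le hp1.le _))
      have h2 := Finset.sum_pow_mul_eq_add_pow (2 * p / α) q A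
      have h3 := Finset.add_sum_erase A.powerset
        (fun Y => (2 * p / α) ^ Y.card * q ^ (A.card - Y.card)) (Finset.empty_mem_powerset A)
      simp only [Finset.card_empty, pow_zero, one_mul, Nat.sub_zero] at h3
      have h4 := hT A.card hA
      linarith
    -- the pattern without stars
    have hnone : W p (ΔY ∅) * q ^ A.card ≤ W p (fun ρ => Δ ρ ∧ ¬ kill ρ) := by
      have h1 := W_pat (p := p) A (pat ∅) (ΔY ∅) (fun ρ a ha o' => by
        simp only [hΔY, hinsu ∅ ρ a ha o'])
      rw [hwpat ∅ (Finset.empty_subset A), Finset.card_empty, pow_zero, one_mul,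
        Nat.sub_zero] at h1
      rw [mul_comm, ← h1]
      refine W_mono hp0.le hp1.le ?_
      rintro ρ ⟨hρ, hρΔ⟩
      have hins' : ins ∅ ρ = ρ := by
        funext i
        simp only [hins]
        by_cases hi : i ∈ A
        · rw [if_pos hi, hρ i hi]
        · rw [if_neg hi]
      refine ⟨by simpa only [hΔY, hins'] using hρΔ, ?_⟩
      rintro ⟨i, hi, hk⟩
      rw [hρ i hi] at hk
      simp [hpat] at hk
    calc W p (fun ρ => Δ ρ ∧ Deep s fun x => f (app ρ x))
        ≤ α ^ s * W p (fun ρ => Δ ρ ∧ kill ρ) + α ^ s * W p (ΔY ∅) * q ^ A.card :=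
          hsplit.trans (add_le_add hpart1 hsum)
      _ = α ^ s * (W p (fun ρ => Δ ρ ∧ kill ρ) + W p (ΔY ∅) * q ^ A.card) := by ring
      _ ≤ α ^ s * (W p (fun ρ => Δ ρ ∧ kill ρ) + W p (fun ρ => Δ ρ ∧ ¬ kill ρ)) :=
          mul_le_mul_of_nonneg_left (add_le_add le_rfl hnone) (pow_nonneg hα0.le _)
      _ = α ^ s * W p Δ := by rw [← W_split]

end Pool.Agent.SW
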